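import Pool.Agent.H628R3.RO.M5

/-!
# One pair of slots: one-sided version with a bounded number of hits (task Q1, helper627)
-/

namespace Pool.Agent.H583R2.QC

open MeasureTheory Pool.Agent.H628R3.RO Pool.Agent.H628R3.RO.M2 Pool.Agent.H628R3.RO.M5

theorem card_pair {K : Set (List Bool)} (hK : K.Finite) {Z η : Set Oracle} (hZ : Loc K Z)
    (hη : Loc K η) (W : Bool → Finset Cand) (hd : Disjoint (W false) (W true))
    {m w : ℕ} (hm : 1 ≤ m) (hw : ∀ i, (W i).card = w) (t L : ℕ) (hL : 1 ≤ L)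
    (hW : ∀ i, ∀ κ ∈ W i, ∀ l < m, pos κ.1 l κ.2 ∈ K)
    (hη' : ∀ (B : Oracle) (h : Finset Cand), h ⊆ W false ∪ W true →
      (plant (allSpots m h) B ∈ η ↔ B ∈ η))
    (hkey : ∀ B ∈ NoHit m (W false ∪ W true), B ∈ η → ∃ (T : Finset Cand) (i : Bool),
      T.card ≤ t ∧ ∀ h ⊆ W i, h.Nonempty → h.card ≤ L → Disjoint h T →
        plant (allSpots m h) B ∉ Z) :
    (1 - (1 / 2 : ℝ) ^ m) ^ w * ((1 - (1 - (1 / 2 : ℝ) ^ m) ^ w - t * (1 / 2) ^ m -
      w * (1 / 2) ^ m / L) * prob η) ≤
      prob (η ∩ ({A | ¬ (A ∈ NoHit m (W false) ↔ A ∈ NoHit m (W true))} ∩ Zᶜ)) := by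
  classical
  set q : ℝ := (1 / 2) ^ m with hq
  have hq0 : 0 < q := by positivity
  have hq1 : q ≤ 1 / 2 := by
    rw [hq]
    calc (1 / 2 : ℝ) ^ m ≤ (1 / 2) ^ 1 := pow_le_pow_of_le_one (by norm_num) (by norm_num) hm
      _ = 1 / 2 := by norm_num
  set N := NoHit m (W false ∪ W true) with hNdef
  set P : ℝ := (1 - q) ^ w with hP
  have hP0 : 0 < P := by rw [hP]; apply pow_pos; linarith
  set π : ℝ := 1 - P with hπ
  have hL0 : (0 : ℝ) < L := by exact_mod_cast hL
  have hWK : ∀ κ ∈ W false ∪ W true, ∀ l < m, pos κ.1 l κ.2 ∈ K := by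
    intro κ hκ
    rw [Finset.mem_union] at hκ
    rcases hκ with hκ | hκ
    · exact hW false κ hκ
    · exact hW true κ hκ
  have hsubW : ∀ i, W i ⊆ W false ∪ W true := by
    rw [Bool.forall_bool]
    exact ⟨Finset.subset_union_left, Finset.subset_union_right⟩
  have hN : Loc K N := loc_noHit hWK
  have hZm := measurableSet_of_loc hK hZ
  have hηm := measurableSet_of_loc hK hη
  have hNm : MeasurableSet N := measurableSet_noHit m _
  have hN0m : MeasurableSet (NoHit m (W false)) := measurableSet_noHit m _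
  have hN1m : MeasurableSet (NoHit m (W true)) := measurableSet_noHit m _
  -- the choices
  have hch : ∀ B : Oracle, ∃ (T : Finset Cand) (i : Bool), T.card ≤ t ∧ (B ∈ N → B ∈ η →
      ∀ h ⊆ W i, h.Nonempty → h.card ≤ L → Disjoint h T → plant (allSpots m h) B ∉ Z) := by
    intro B
    by_cases h1 : B ∈ N ∧ B ∈ η
    · obtain ⟨T, i, hT, hT2⟩ := hkey B h1.1 h1.2
      exact ⟨T, i, hT, fun _ _ => hT2⟩
    · exact ⟨∅, false, by simp, fun h2 h3 => absurd ⟨h2, h3⟩ h1⟩
  choose T ch hT1 hT2 using hch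
  have hmask : ∀ B : Oracle, ∀ x ∈ K, mask K B x = B x := fun B x hx => mask_eq hx
  set Ak : Cand → Set Oracle := fun κ => {B | κ ∈ T (mask K B)} with hAk
  have hAl : ∀ κ, Loc K (Ak κ) := by
    intro κ A A' h
    simp only [hAk, Set.mem_ofPred_eq, mask_congr h]
  have hAm : ∀ κ, MeasurableSet (Ak κ) := fun κ => measurableSet_of_loc hK (hAl κ)
  set Sc : Bool → Set Oracle := fun i => {B | ch (mask K B) = i} with hSc
  have hSl : ∀ i, Loc K (Sc i) := by
    intro i A A' h
    simp only [hSc, Set.mem_ofPred_eq, mask_congr h]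
  have hSm : ∀ i, MeasurableSet (Sc i) := fun i => measurableSet_of_loc hK (hSl i)
  -- notation
  have hηN : prob (η ∩ N) = prob η * P ^ 2 := by
    have h1 : prob (η ∩ N) = prob η * (1 - q) ^ (W false ∪ W true).card := by
      apply prob_noHit_aux hηm
      intro κ hκ A
      rw [← allSpots_singleton]
      exact hη' A {κ} (Finset.singleton_subset_iff.2 hκ)
    rw [h1, Finset.card_union_of_disjoint hd, hw, hw, pow_add, ← hP]
    ring
  set ν : Bool → ℝ := fun i => prob (η ∩ N ∩ Sc i) with hν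
  have hν0 : ∀ i, 0 ≤ ν i := fun i => prob_nonneg _
  have hνs : ν false + ν true = prob η * P ^ 2 := by
    have h1 := prob_inter_add_compl (η ∩ N) (hSm false)
    have h2 : (Sc false)ᶜ = Sc true := by
      ext B
      simp only [hSc, Set.mem_compl_iff, Set.mem_ofPred_eq, Bool.not_eq_false]
    rw [h2, hηN] at h1
    exact h1
  set z : Finset Cand → ℝ := fun h => prob (plant (allSpots m h) ⁻¹' (η ∩ Zᶜ) ∩ N) with hz
  have hz0 : ∀ h, 0 ≤ z h := fun h => prob_nonneg _
  set p : Bool → Cand → ℝ := fun i κ => prob (η ∩ N ∩ Sc i ∩ Ak κ) with hp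
  have hp0 : ∀ i κ, 0 ≤ p i κ := fun i κ => prob_nonneg _
  -- the bound for one set of hits
  have hone : ∀ i, ∀ h ∈ (W i).powerset.erase ∅,
      ν i - ν i / L * h.card - ∑ κ ∈ h, p i κ ≤ z h := by
    intro i h hh
    rw [Finset.mem_erase, Finset.mem_powerset] at hh
    obtain ⟨hne, hsub⟩ := hh
    have hne' := Finset.nonempty_iff_ne_empty.2 hne
    have hps : 0 ≤ ∑ κ ∈ h, p i κ := Finset.sum_nonneg fun κ _ => hp0 i κ
    by_cases hc : h.card ≤ L
    · set G1 := plant (allSpots m h) ⁻¹' (η ∩ Zᶜ) ∩ N with hG1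
      set G5 := ⋃ κ ∈ h, η ∩ N ∩ Sc i ∩ Ak κ with hG5
      have h1 : η ∩ N ∩ Sc i ⊆ G1 ∪ G5 := by
        rintro B ⟨⟨hBη, hBN⟩, hBS⟩
        by_cases c5 : Disjoint h (T (mask K B))
        swap
        · rw [Finset.not_disjoint_iff] at c5
          obtain ⟨κ, hκ, hκ'⟩ := c5
          right
          rw [hG5]
          simp only [Set.mem_iUnion]
          exact ⟨κ, hκ, ⟨⟨hBη, hBN⟩, hBS⟩, hκ'⟩
        left
        have h2 : mask K B ∈ N := (hN _ _ (hmask B)).2 hBN
        have h3 : mask K B ∈ η := (hη _ _ (hmask B)).2 hBη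
        have hBS' : ch (mask K B) = i := hBS
        have h4 := hT2 (mask K B) h2 h3 h (by rw [hBS']; exact hsub) hne' hc c5
        refine ⟨⟨(hη' B h (hsub.trans (hsubW i))).2 hBη, ?_⟩, hBN⟩
        intro h5
        exact h4 ((loc_plant hZ (allSpots m h) _ _ (hmask B)).2 h5)
      have u0 := prob_mono h1
      have u1 := prob_union_le G1 G5
      have v5 : prob G5 ≤ ∑ κ ∈ h, p i κ := prob_biUnion_le h (fun κ => η ∩ N ∩ Sc i ∩ Ak κ)
      have w3 : z h = prob G1 := rfl
      have w4 : 0 ≤ ν i / L * h.card := by have := hν0 i; positivity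
      have w5 : ν i = prob (η ∩ N ∩ Sc i) := rfl
      rw [w3]
      linarith
    · have h1 : ν i ≤ ν i / L * h.card := by
        have h2 : (L : ℝ) ≤ h.card := by exact_mod_cast (not_le.1 hc).le
        calc ν i = ν i / L * L := by field_simp
          _ ≤ ν i / L * h.card := by
            apply mul_le_mul_of_nonneg_left h2
            have := hν0 i; positivity
      have := hz0 h
      linarith
  have hcount : ∀ i, ∑ κ ∈ W i, p i κ ≤ t * ν i := by
    intro i
    apply sum_prob_le ((hηm.inter hNm).inter (hSm i)) (W i) Ak hAm t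
    intro B _
    exact ⟨T (mask K B), hT1 _, fun κ _ hκ => hκ⟩
  have hwt0 : ∀ V h, 0 ≤ wt q V h := fun V h => wt_nonneg hq0.le (by linarith) V h
  have hsw : ∀ i, ∑ h ∈ (W i).powerset.erase ∅, wt q (W i) h = π := by
    intro i
    rw [sum_wt_erase, hw i]
  have hscard : ∀ i, ∑ h ∈ (W i).powerset.erase ∅, wt q (W i) h * (h.card : ℝ) = q * w := by
    intro i
    have := sum_wt_sum_erase q (W i) (fun _ => (1 : ℝ))
    simp only [Finset.sum_const, nsmul_eq_mul, mul_one, hw i] at this
    exact this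
  -- the sum over one half
  have hhalf : ∀ i, ν i * (π - t * q - w * q / L) ≤
      ∑ h ∈ (W i).powerset.erase ∅, wt q (W i) h * z h := by
    intro i
    have h1 : ∑ h ∈ (W i).powerset.erase ∅, wt q (W i) h *
        (ν i - ν i / L * h.card - ∑ κ ∈ h, p i κ) ≤
        ∑ h ∈ (W i).powerset.erase ∅, wt q (W i) h * z h :=
      Finset.sum_le_sum fun h hh => mul_le_mul_of_nonneg_left (hone i h hh) (hwt0 _ _)
    have h2 : ∑ h ∈ (W i).powerset.erase ∅, wt q (W i) h *
        (ν i - ν i / L * h.card - ∑ κ ∈ h, p i κ) =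
        π * ν i - ν i / L * (q * w) - q * ∑ κ ∈ W i, p i κ := by
      rw [← sum_wt_sum_erase, ← hsw i, ← hscard i, Finset.sum_mul, Finset.mul_sum,
        ← Finset.sum_sub_distrib, ← Finset.sum_sub_distrib]
      exact Finset.sum_congr rfl fun h _ => by ring
    have h3 := mul_le_mul_of_nonneg_left (hcount i) hq0.le
    have h4 : ν i * (π - t * q - w * q / L) = π * ν i - ν i / L * (q * w) - q * (t * ν i) := by
      ring
    rw [h4]
    linarith
  -- partition
  set BE : Set Oracle := η ∩ ({A | ¬ (A ∈ NoHit m (W false) ↔ A ∈ NoHit m (W true))} ∩ Zᶜ) with hBE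
  have hXm : MeasurableSet {A : Oracle | ¬ (A ∈ NoHit m (W false) ↔ A ∈ NoHit m (W true))} := by
    have : {A : Oracle | ¬ (A ∈ NoHit m (W false) ↔ A ∈ NoHit m (W true))} =
        ((NoHit m (W false)) ∩ (NoHit m (W true))ᶜ) ∪ ((NoHit m (W false))ᶜ ∩ NoHit m (W true)) := by
      ext A
      simp only [Set.mem_ofPred_eq, Set.mem_union, Set.mem_inter_iff, Set.mem_compl_iff]
      tauto
    rw [this]
    exact (hN0m.inter hN1m.compl).union (hN0m.compl.inter hN1m)
  have hBEm : MeasurableSet BE := hηm.inter (hXm.inter hZm.compl)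
  have hpart := prob_two hd m hBEm
  rw [← hq, hw false, hw true, ← hP] at hpart
  have hge := sum_ge_one (W₀ := W false) (W₁ := W true)
    (fun h₀ h₁ => wt q (W false) h₀ * wt q (W true) h₁ *
          prob (plant (allSpots m (h₀ ∪ h₁)) ⁻¹' BE ∩ NoHit m (W false ∪ W true)))
    (fun a b => mul_nonneg (mul_nonneg (hwt0 _ _) (hwt0 _ _)) (prob_nonneg _))
  rw [← hpart] at hge
  simp only [Finset.union_empty, Finset.empty_union, wt_empty, hw] at hge
  rw [← hP, ← hNdef] at hge
  -- planting on one side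
  have hside : ∀ i, ∀ h ∈ (W i).powerset.erase ∅,
      z h ≤ prob (plant (allSpots m h) ⁻¹' BE ∩ N) := by
    intro i h hh
    rw [Finset.mem_erase, Finset.mem_powerset] at hh
    obtain ⟨hne, hsub⟩ := hh
    obtain ⟨κ, hκ⟩ := Finset.nonempty_iff_ne_empty.2 hne
    refine prob_mono ?_
    rintro B ⟨⟨h1, h2⟩, hBN⟩
    refine ⟨⟨h1, ?_, h2⟩, hBN⟩
    rw [hNdef, noHit_union] at hBN
    have hno : ∀ j, plant (allSpots m h) B ∈ NoHit m (W j) → j ≠ i := by
      rintro j hj rfl
      exact hj κ (hsub hκ) (hit_plant_self hκ B)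
    have hyes : ∀ j, j ≠ i → B ∈ NoHit m (W j) → plant (allSpots m h) B ∈ NoHit m (W j) := by
      intro j hj hB κ' hκ' hhit
      have hnot : κ' ∉ h := by
        intro hc
        have hdij : Disjoint (W j) (W i) := by
          cases i <;> cases j
          · exact absurd rfl hj
          · exact hd.symm
          · exact hd
          · exact absurd rfl hj
        exact Finset.disjoint_left.1 hdij hκ' (hsub hc)
      exact hB κ' hκ' ((hit_plant hnot B).1 hhit)
    change ¬ (plant (allSpots m h) B ∈ NoHit m (W false) ↔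
      plant (allSpots m h) B ∈ NoHit m (W true))
    cases i
    · intro hiff
      exact hno false (hiff.2 (hyes true (by simp) hBN.2)) rfl
    · intro hiff
      exact hno true (hiff.1 (hyes false (by simp) hBN.1)) rfl
  have e1 : P * ∑ h ∈ (W false).powerset.erase ∅, wt q (W false) h * z h ≤
      ∑ h ∈ (W false).powerset.erase ∅, wt q (W false) h * P *
      prob (plant (allSpots m h) ⁻¹' BE ∩ N) := by
    rw [Finset.mul_sum]
    refine Finset.sum_le_sum fun h hh => ?_
    have := mul_le_mul_of_nonneg_left (hside false h hh)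
      (mul_nonneg (hwt0 (W false) h) hP0.le)
    linarith
  have e2 : P * ∑ h ∈ (W true).powerset.erase ∅, wt q (W true) h * z h ≤
      ∑ h ∈ (W true).powerset.erase ∅, P * wt q (W true) h *
      prob (plant (allSpots m h) ⁻¹' BE ∩ N) := by
    rw [Finset.mul_sum]
    refine Finset.sum_le_sum fun h hh => ?_
    have := mul_le_mul_of_nonneg_left (hside true h hh)
      (mul_nonneg hP0.le (hwt0 (W true) h))
    linarith
  have e0 : 0 ≤ P * P * prob (plant (allSpots m ∅) ⁻¹' BE ∩ N) :=
    mul_nonneg (by positivity) (prob_nonneg _)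
  have f0 := mul_le_mul_of_nonneg_left (hhalf false) hP0.le
  have f1 := mul_le_mul_of_nonneg_left (hhalf true) hP0.le
  have g : P * ((ν false + ν true) * (π - t * q - w * q / L)) ≤ prob BE * (P * P) := by
    linarith
  rw [hνs] at g
  have hfin : (P * P) * (P * ((π - t * q - w * q / L) * prob η)) ≤ (P * P) * prob BE := by
    calc _ = P * (prob η * P ^ 2 * (π - t * q - w * q / L)) := by ring
      _ ≤ prob BE * (P * P) := g
      _ = _ := by ring
  exact le_of_mul_le_mul_left hfin (by positivity)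

end Pool.Agent.H583R2.QC
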