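import Pool.Agent.H583R2.NC.Defs
import Pool.Agent.H620R2.GaugeQ.Defs

/-!
# Quantum algorithms for the language of hidden blocks
-/

namespace Pool.Agent.H583R2.QC

open Pool.Agent.NPC Pool.Agent.H628R3.RO Pool.Agent.H583R2.NC

/-- the circuits `C` decide the instances of stage `n` -/
def GoodQ (C : List Bool → List Unit × List H620R2.Gauge.Gate) (n s : ℕ) : Set Oracle :=
  {A | ∀ b < BB s, ∀ j < JJ s, A ∈ Others n s b j →
    (A ∉ Zero n s b (2 * j) → A ∈ Zero n s b (2 * j + 1) →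
      2 / 3 ≤ H620R2.Gauge.accProb A (C (inst n s b j A))) ∧
    (A ∈ Zero n s b (2 * j) → A ∉ Zero n s b (2 * j + 1) →
      H620R2.Gauge.accProb A (C (inst n s b j A)) ≤ 1 / 3)}

end Pool.Agent.H583R2.QC
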