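import Pool.Agent.H583R2.QC.Defs
import Pool.Agent.H822R2.ESY.QHyb
import Pool.Agent.H620R2.GaugeQ.Q8
import Pool.Agent.H628R3.RO.M2

/-! Task Q2: the candidates which a quantum circuit can see. -/

namespace Pool.Agent.H583R2.QC

open MeasureTheory Pool.Agent.NPC Pool.Agent.H628R3.RO Pool.Agent.H583R2.NC
open Pool.Agent.H620R2.Gauge (Gate accProb)

/-- planting changes the oracle only at new strings -/
theorem Q2_plant_ne {J : Finset (List Bool)} {A : Oracle} {u : List Bool}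
    (h : plant J A u ≠ A u) : u ∈ J ∧ A u ≠ true := by
  unfold plant at h
  by_cases hu : u ∈ J
  · rw [if_pos hu] at h
    exact ⟨hu, fun h' => h h'.symm⟩
  · rw [if_neg hu] at h
    exact absurd rfl h

theorem Q2_gw_plant_le {q : ℕ} (A : Oracle) (m : ℕ) (h : Finset Cand) (g : Gate)
    (ψ : (Fin q → Bool) → ℝ) : H822R2.ESY.Q.gw A (plant (allSpots m h) A) g ψ ≤
      ∑ κ ∈ h, H822R2.ESY.Q.gw A (plant (allSpots m {κ}) A) g ψ := by
  classical
  rcases g with i | ⟨b, l, k⟩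
  · simp [H822R2.ESY.Q.gw]
  · cases b with
    | false => simp [H822R2.ESY.Q.gw]
    | true =>
      by_cases hk : k < q
      · simp only [H822R2.ESY.Q.gw, dif_pos hk]
        rw [Finset.sum_comm]
        refine Finset.sum_le_sum fun s _ => ?_
        have hnn : ∀ κ ∈ h, (0 : ℝ) ≤ (if A (H822R2.ESY.Q.ques l ⟨k, hk⟩ s) =
            plant (allSpots m {κ}) A (H822R2.ESY.Q.ques l ⟨k, hk⟩ s) then 0 else ψ s ^ 2) := by
          intro κ _
          split_ifs
          · exact le_rfl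
          · positivity
        by_cases h1 : A (H822R2.ESY.Q.ques l ⟨k, hk⟩ s) =
            plant (allSpots m h) A (H822R2.ESY.Q.ques l ⟨k, hk⟩ s)
        · rw [if_pos h1]
          exact Finset.sum_nonneg hnn
        · rw [if_neg h1]
          obtain ⟨h2, h3⟩ := Q2_plant_ne (fun h' => h1 h'.symm)
          rw [M2.mem_allSpots] at h2
          obtain ⟨κ, hκ, hu⟩ := h2
          refine le_trans (le_of_eq ?_) (Finset.single_le_sum hnn hκ)
          rw [if_neg]
          intro h4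
          have h5 : H822R2.ESY.Q.ques l ⟨k, hk⟩ s ∈ allSpots m {κ} := by
            rw [M2.mem_allSpots]
            exact ⟨κ, Finset.mem_singleton_self κ, hu⟩
          apply h3
          rw [h4]
          unfold plant
          rw [if_pos h5]
      · simp [H822R2.ESY.Q.gw, hk]

theorem dev_plant_le {q : ℕ} (A : Oracle) (m : ℕ) (h : Finset Cand) (l : List Gate)
    (ψ : (Fin q → Bool) → ℝ) : H822R2.ESY.Q.dev A (plant (allSpots m h) A) l ψ ≤
      ∑ κ ∈ h, H822R2.ESY.Q.dev A (plant (allSpots m {κ}) A) l ψ := by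
  induction l generalizing ψ with
  | nil => simp [H822R2.ESY.Q.dev]
  | cons g l ih =>
    simp only [H822R2.ESY.Q.dev, Finset.sum_add_distrib]
    exact add_le_add (Q2_gw_plant_le A m h g ψ) (ih _)

theorem heavy (B : Oracle) (c : List Unit × List Gate) {T L : ℕ} (m : ℕ) (hT : c.2.length ≤ T)
    (hT1 : 1 ≤ T) (hL : 1 ≤ L) (W : Finset Cand) : ∃ S : Finset Cand,
      S.card ≤ 2304 * T ^ 2 * L ∧ ∀ h ⊆ W, h.card ≤ L → Disjoint h S →
        |accProb B c - accProb (plant (allSpots m h) B) c| ≤ 1 / 12 := by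
  classical
  obtain ⟨ψ, hψ⟩ : ∃ ψ, ψ = H620R2.Gauge.initSt c.1.length := ⟨_, rfl⟩
  have hTp : (0 : ℝ) < T := by exact_mod_cast hT1
  have hLp : (0 : ℝ) < L := by exact_mod_cast hL
  have hT' : (c.2.length : ℝ) ≤ T := by exact_mod_cast hT
  obtain ⟨θ, hθ⟩ : ∃ θ : ℝ, θ = 1 / (2304 * T * L) := ⟨_, rfl⟩
  have hθ0 : 0 < θ := by rw [hθ]; positivity
  have hnn : ∀ κ, 0 ≤ H822R2.ESY.Q.dev B (plant (allSpots m {κ}) B) c.2 ψ := fun κ =>
    H822R2.ESY.Q.dev_nonneg _ _ _ _
  have hsum : ∑ κ ∈ W, H822R2.ESY.Q.dev B (plant (allSpots m {κ}) B) c.2 ψ ≤ T := by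
    have h1 := H822R2.ESY.Q.sum_dev W B (fun κ => plant (allSpots m {κ}) B) 1 (by
      intro u
      rw [Finset.card_le_one]
      intro κ hκ κ' hκ'
      rw [Finset.mem_filter] at hκ hκ'
      have h2 := (Q2_plant_ne hκ.2).1
      have h3 := (Q2_plant_ne hκ'.2).1
      rw [M2.mem_allSpots] at h2 h3
      obtain ⟨a, ha, hua⟩ := h2
      obtain ⟨a', ha', hua'⟩ := h3
      rw [Finset.mem_singleton] at ha ha'
      rw [ha] at hua
      rw [ha'] at hua'
      exact M2.spots_disjoint hua hua') c.2 ψ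
    have h2 : ∑ s, ψ s ^ 2 = 1 := by rw [hψ]; exact H822R2.ESY.Q.sum_initSt _
    rw [h2] at h1
    push_cast at h1
    linarith
  refine ⟨W.filter (fun κ => θ < H822R2.ESY.Q.dev B (plant (allSpots m {κ}) B) c.2 ψ), ?_, ?_⟩
  · have h1 : ((W.filter (fun κ => θ < H822R2.ESY.Q.dev B (plant (allSpots m {κ}) B) c.2 ψ)).card
        : ℝ) * θ ≤ T := by
      calc ((W.filter (fun κ => θ < H822R2.ESY.Q.dev B (plant (allSpots m {κ}) B) c.2 ψ)).card
        : ℝ) * θ = ∑ _κ ∈ W.filter (fun κ => θ < H822R2.ESY.Q.dev B (plant (allSpots m {κ}) B)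
            c.2 ψ), θ := by rw [Finset.sum_const, nsmul_eq_mul]
        _ ≤ ∑ κ ∈ W.filter (fun κ => θ < H822R2.ESY.Q.dev B (plant (allSpots m {κ}) B) c.2 ψ),
            H822R2.ESY.Q.dev B (plant (allSpots m {κ}) B) c.2 ψ :=
            Finset.sum_le_sum fun κ hκ => (Finset.mem_filter.1 hκ).2.le
        _ ≤ ∑ κ ∈ W, H822R2.ESY.Q.dev B (plant (allSpots m {κ}) B) c.2 ψ :=
            Finset.sum_le_sum_of_subset_of_nonneg (Finset.filter_subset _ _)
              (fun κ _ _ => hnn κ)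
        _ ≤ T := hsum
    have h2 : ((W.filter (fun κ => θ < H822R2.ESY.Q.dev B (plant (allSpots m {κ}) B) c.2 ψ)).card
        : ℝ) ≤ 2304 * T ^ 2 * L := by
      rw [← le_div_iff₀ hθ0] at h1
      refine h1.trans (le_of_eq ?_)
      rw [hθ]
      field_simp
    exact_mod_cast h2
  · intro h hW hcard hd
    have h1 : H822R2.ESY.Q.dev B (plant (allSpots m h) B) c.2 ψ ≤ L * θ := by
      refine (dev_plant_le B m h c.2 ψ).trans ?_
      calc ∑ κ ∈ h, H822R2.ESY.Q.dev B (plant (allSpots m {κ}) B) c.2 ψ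
          ≤ ∑ _κ ∈ h, θ := Finset.sum_le_sum fun κ hκ => by
            by_contra hcon
            push Not at hcon
            exact Finset.disjoint_left.1 hd hκ (Finset.mem_filter.2 ⟨hW hκ, hcon⟩)
        _ = h.card * θ := by rw [Finset.sum_const, nsmul_eq_mul]
        _ ≤ L * θ := mul_le_mul_of_nonneg_right (by exact_mod_cast hcard) hθ0.le
    have h2 := H822R2.ESY.Q.acc_diff B (plant (allSpots m h) B) c
    rw [← hψ] at h2
    have h3 : (c.2.length : ℝ) * H822R2.ESY.Q.dev B (plant (allSpots m h) B) c.2 ψ ≤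
        (1 / 48) ^ 2 := by
      calc (c.2.length : ℝ) * H822R2.ESY.Q.dev B (plant (allSpots m h) B) c.2 ψ
          ≤ T * (L * θ) := mul_le_mul hT' h1 (H822R2.ESY.Q.dev_nonneg _ _ _ _) hTp.le
        _ = (1 / 48) ^ 2 := by
          rw [hθ]
          field_simp
          norm_num
    have h4 : Real.sqrt ((c.2.length : ℝ) * H822R2.ESY.Q.dev B (plant (allSpots m h) B) c.2 ψ) ≤
        1 / 48 := by
      refine (Real.sqrt_le_sqrt h3).trans (le_of_eq ?_)
      rw [Real.sqrt_sq (by norm_num)]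
    linarith

end Pool.Agent.H583R2.QC
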