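import Pool.Agent.H583R2.QC.Defs
import Pool.Agent.H583R2.NC.KeyR
import Pool.Agent.H620R2.GaugeQ.Q8

/-!
# Locality of `GoodQ` (task Q3, helper204)
-/

namespace Pool.Agent.H583R2.QC

open MeasureTheory Pool.Agent.NPC Pool.Agent.H628R3.RO Pool.Agent.H583R2.NC
open Pool.Agent.H620R2.Gauge (Gate accProb)

theorem loc_GoodQ {C : List Bool → List Unit × List Gate} (hC : PolyTime (fun x => bits (C x))) :
    ∃ b : Polynomial ℕ, ∀ n s, s ≤ n → Loc {x | x.length ≤ b.eval (2 ^ n)} (GoodQ C n s) := by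
  obtain ⟨q, hq⟩ := H620R2.Gauge.circ_bound hC
  obtain ⟨P, hP⟩ := inst_length
  obtain ⟨S, hS⟩ := length_spotsB
  refine ⟨S + q.comp P, fun n s hs => loc_of_imp fun A A' h => ?_⟩
  have hn2 : n ≤ 2 ^ n := Nat.lt_two_pow_self.le
  have h' : ∀ z : List Bool, z.length ≤ S.eval (2 ^ n) + q.eval (P.eval (2 ^ n)) →
      A z = A' z := by
    intro z hz
    apply h z
    change z.length ≤ _
    simpa only [Polynomial.eval_add, Polynomial.eval_comp] using hz
  have hspots : ∀ x ∈ spotsB n s, A x = A' x := by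
    intro x hx
    apply h'
    have h1 := hS n s hs x hx
    have h2 := eval_mono S hn2
    omega
  intro hG b hb j hj hO'
  have hO : A ∈ Others n s b j := (loc_Others hb A A' hspots).mpr hO'
  have hj2 : 2 * j < KK s := by unfold KK; omega
  have hj3 : 2 * j + 1 < KK s := by unfold KK; omega
  have hinst : inst n s b j A = inst n s b j A' := inst_congr hb hspots
  have hlen : (inst n s b j A).length ≤ P.eval (2 ^ n) :=
    (hP n s b j A hs hb hj).trans (eval_mono P hn2)
  have hacc : accProb A (C (inst n s b j A)) = accProb A' (C (inst n s b j A')) := by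
    rw [← hinst]
    refine H620R2.Gauge.accProb_local (N := 0) fun y k hk z hz => h' z ?_
    have h1 := (hq (inst n s b j A)).2 y k hk
    have h2 := eval_mono q hlen
    omega
  have hZ0 : A ∈ Zero n s b (2 * j) ↔ A' ∈ Zero n s b (2 * j) := loc_Zero hb hj2 A A' hspots
  have hZ1 : A ∈ Zero n s b (2 * j + 1) ↔ A' ∈ Zero n s b (2 * j + 1) :=
    loc_Zero hb hj3 A A' hspots
  obtain ⟨hG1, hG2⟩ := hG b hb j hj hO
  rw [hacc] at hG1 hG2
  exact ⟨fun h0 h1 => hG1 (fun hA => h0 (hZ0.mp hA)) (hZ1.mpr h1),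
    fun h0 h1 => hG2 (hZ0.mpr h0) (fun hA => h1 (hZ1.mp hA))⟩

end Pool.Agent.H583R2.QC
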