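import Pool.Agent.H583R2.QC.Card
import Pool.Agent.H583R2.QC.Heavy
import Pool.Agent.H583R2.QC.LocQ
import Pool.Agent.H583R2.BK.NCSys
import Pool.Agent.H583R2.NC.KeyB
import Pool.Agent.H583R2.NC.Inst
import Pool.Agent.H628R3.RO.K2

/-!
# The key inequality for quantum circuits (task Q4, helper226)
-/

namespace Pool.Agent.H583R2.QC

open MeasureTheory Pool.Agent.NPC Pool.Agent.H628R3.RO Pool.Agent.H583R2.NC
open Pool.Agent.H628R3.RO.M2
open Pool.Agent.H620R2.Gauge (Gate accProb)

namespace KQ

theorem size_le (t : ℕ) : Nat.size t ≤ t := by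
  rw [Nat.size_le]
  exact Nat.lt_two_pow_self

theorem qq_le (s : ℕ) : qq s ≤ s := (size_le _).trans (size_le _)

theorem num {z t q w L : ℝ} (hz : 0 ≤ z) {P : ℝ} (hP : 0 ≤ P) (h1 : t * q ≤ 1 / 64)
    (h2 : w * q / L ≤ 1 / 64) :
    z * ((1 - z - 1 / 32) * P) ≤ z * ((1 - z - t * q - w * q / L) * P) := by
  apply mul_le_mul_of_nonneg_left _ hz
  apply mul_le_mul_of_nonneg_right _ hP
  linarith

end KQ

open KQ

theorem key_Q {C : List Bool → List Unit × List Gate} (hC : PolyTime (fun x => bits (C x))) :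
    ∃ n0, ∀ n ≥ n0, ∀ s, 4 ≤ s → s ≤ n → ∀ t < n, ∀ η : Set Oracle,
      Loc {x | x.length ≤ t} η → ll s * (7 / 8 * prob η) ≤ prob (η ∩ (GoodQ C n s)ᶜ) := by
  classical
  obtain ⟨bG, hbG⟩ := loc_GoodQ hC
  obtain ⟨bC, hbC⟩ := H620R2.Gauge.circ_bound hC
  obtain ⟨P, hP⟩ := inst_length
  obtain ⟨n2, hn2⟩ := mul_poly_le_two_pow ((bC.comp P + 1) ^ 2 * Polynomial.X) (64 * 2304 * 64)
  refine ⟨n2, fun n hn s hs4 hsn t₀ ht₀ η hη => ?_⟩
  have hn2' := hn2 n hn
  have hn1 : 1 ≤ n := by omega
  set T : ℕ := bC.eval (P.eval n) + 1 with hT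
  have hpoly : 64 * (2304 * T ^ 2 * (64 * n)) ≤ 2 ^ n := by
    refine le_trans (le_of_eq ?_) hn2'
    simp only [Polynomial.eval_mul, Polynomial.eval_pow, Polynomial.eval_add, Polynomial.eval_one,
      Polynomial.eval_comp, Polynomial.eval_X]
    rw [hT]
    ring
  -- the finite set of strings
  obtain ⟨L0, hL0⟩ : ∃ L, ∀ x ∈ spotsB n s, x.length ≤ L :=
    ⟨(spotsB n s).sup List.length, fun x hx => Finset.le_sup (f := List.length) hx⟩
  set K : Set (List Bool) := {x | x.length ≤ max L0 (max (bG.eval (2 ^ n)) t₀)} with hKdef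
  have hK : K.Finite := List.finite_length_le Bool _
  have hsp : (spotsB n s : Set (List Bool)) ⊆ K := fun x hx => (hL0 x hx).trans (le_max_left _ _)
  have hkK : {x : List Bool | x.length ≤ bG.eval (2 ^ n)} ⊆ K := by
    intro x hx
    have hx' : x.length ≤ bG.eval (2 ^ n) := hx
    have : x.length ≤ max L0 (max (bG.eval (2 ^ n)) t₀) := by omega
    exact this
  have htK : {x : List Bool | x.length ≤ t₀} ⊆ K := by
    intro x hx
    have hx' : x.length ≤ t₀ := hx
    have : x.length ≤ max L0 (max (bG.eval (2 ^ n)) t₀) := by omega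
    exact this
  have lη : Loc K η := KB.l_mono hη htK
  have lG : Loc K (GoodQ C n s) := KB.l_mono (hbG n s hsn) hkK
  refine BK.key_genNC hs4 hsn ht₀ hη (measurableSet_of_loc hK lG) fun b hb j hj => ?_
  have hK2 : KK s = 2 * JJ s := rfl
  have lO : Loc K (Others n s b j) := KB.l_mono (loc_Others hb) hsp
  have lQ : Loc K (Quiet n s b) := KB.l_mono (loc_Quiet n s b) hsp
  have hunion : ∀ h : Finset Cand,
      h ⊆ slot n s b (2 * j + false.toNat) ∪ slot n s b (2 * j + true.toNat) →
      h ⊆ slot n s b (2 * j) ∪ slot n s b (2 * j + 1) := fun h hh => hh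
  have hsub : slot n s b (2 * j) ∪ slot n s b (2 * j + 1) ⊆ blk n s :=
    Finset.union_subset (slot_subset hb (by omega)) (slot_subset hb (by omega))
  have hd : Disjoint (slot n s b (2 * j)) (slot n s b (2 * j + 1)) :=
    slot_disjoint' (by omega) (by omega) (Or.inr (by omega))
  have key := card_pair hK (Z := GoodQ C n s)
    (η := η ∩ (Quiet n s b ∩ Others n s b j)) lG (KB.l_inter lη (KB.l_inter lQ lO))
    (fun i : Bool => slot n s b (2 * j + i.toNat)) hd (m := wl n) (w := qq s * 2 ^ wl n)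
    (by unfold wl; omega) (fun i => card_slot _ _ _ _) (2304 * T ^ 2 * (64 * n)) (64 * n)
    (by omega)
    (by
      intro i κ hκ l hl
      apply hsp
      apply pos_mem_spotsB _ hl
      cases i
      · exact slot_subset hb (by simp; omega) hκ
      · exact slot_subset hb (by simp; omega) hκ)
    (by
      intro B h hh
      have hh' := hunion h hh
      have e1 := plant_short (n := n) (s := s) ht₀.le hη (hh'.trans hsub) B
      have e2 := plant_Quiet (n := n) (b := b) hj hh' B
      have e3 := plant_Others (n := n) (b := b) hj hh' B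
      simp only [Set.mem_inter_iff]
      rw [e1, e2, e3])
    (by
      intro B hB hBη
      have hB0 : B ∈ Zero n s b (2 * j) := fun κ hκ => hB κ (Finset.mem_union_left _ hκ)
      have hB1 : B ∈ Zero n s b (2 * j + 1) := fun κ hκ => hB κ (Finset.mem_union_right _ hκ)
      have hBO : B ∈ Others n s b j := hBη.2.2
      have hlen : (C (inst n s b j B)).2.length ≤ T := by
        refine ((hbC (inst n s b j B)).1).trans ?_
        have := eval_mono bC (hP n s b j B hsn hb hj)
        omega
      obtain ⟨S, hSc, hS⟩ := heavy B (C (inst n s b j B)) (L := 64 * n) (wl n) hlen (by omega)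
        (by omega) (slot n s b (2 * j) ∪ slot n s b (2 * j + 1))
      by_cases hp : 1 / 2 ≤ accProb B (C (inst n s b j B))
      · refine ⟨S, true, hSc, fun h hh hne hhL hhS hZ => ?_⟩
        have hhW : h ⊆ slot n s b (2 * j) ∪ slot n s b (2 * j + 1) :=
          hh.trans Finset.subset_union_right
        have h1 := hS h hhW hhL hhS
        have hO : plant (allSpots (wl n) h) B ∈ Others n s b j := (plant_Others hj hhW B).2 hBO
        have hz0 : plant (allSpots (wl n) h) B ∈ Zero n s b (2 * j) :=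
          (plant_Zero (Finset.disjoint_of_subset_left hh hd.symm) B).2 hB0
        have hz1 : plant (allSpots (wl n) h) B ∉ Zero n s b (2 * j + 1) := by
          obtain ⟨κ, hκ⟩ := hne
          exact fun h7 => h7 κ (hh hκ) (hit_plant_self hκ B)
        have h2 := (hZ b hb j hj hO).2 hz0 hz1
        rw [inst_plant hj hhW] at h2
        rw [abs_le] at h1
        linarith [h1.1, h1.2]
      · push Not at hp
        refine ⟨S, false, hSc, fun h hh hne hhL hhS hZ => ?_⟩
        have hhW : h ⊆ slot n s b (2 * j) ∪ slot n s b (2 * j + 1) :=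
          hh.trans Finset.subset_union_left
        have h1 := hS h hhW hhL hhS
        have hO : plant (allSpots (wl n) h) B ∈ Others n s b j := (plant_Others hj hhW B).2 hBO
        have hz1 : plant (allSpots (wl n) h) B ∈ Zero n s b (2 * j + 1) :=
          (plant_Zero (Finset.disjoint_of_subset_left hh hd) B).2 hB1
        have hz0 : plant (allSpots (wl n) h) B ∉ Zero n s b (2 * j) := by
          obtain ⟨κ, hκ⟩ := hne
          exact fun h7 => h7 κ (hh hκ) (hit_plant_self hκ B)
        have h2 := (hZ b hb j hj hO).1 hz0 hz1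
        rw [inst_plant hj hhW] at h2
        rw [abs_le] at h1
        linarith [h1.1, h1.2])
  have e : zp n s = (1 - (1 / 2 : ℝ) ^ wl n) ^ (qq s * 2 ^ wl n) := rfl
  rw [← e] at key
  refine le_trans (num (zp_pos n s).le (prob_nonneg _) ?_ ?_) key
  · have h1 : ((64 * (2304 * T ^ 2 * (64 * n)) : ℕ) : ℝ) ≤ ((2 ^ wl n : ℕ) : ℝ) := by
      exact_mod_cast hpoly.trans (Nat.pow_le_pow_right (by norm_num) (by unfold wl; omega))
    have h2 : ((2 ^ wl n : ℕ) : ℝ) * (1 / 2 : ℝ) ^ wl n = 1 := by
      push_cast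
      rw [← mul_pow]
      norm_num
    have h3 := mul_le_mul_of_nonneg_right h1 (by positivity : (0:ℝ) ≤ (1 / 2 : ℝ) ^ wl n)
    rw [h2] at h3
    push_cast at h3 ⊢
    linarith
  · have h2 : ((2 : ℝ) ^ wl n) * (1 / 2 : ℝ) ^ wl n = 1 := by
      rw [← mul_pow]
      norm_num
    have h3 : ((qq s * 2 ^ wl n : ℕ) : ℝ) * (1 / 2) ^ wl n = qq s := by
      push_cast
      rw [mul_assoc, h2, mul_one]
    rw [h3]
    have hq : (qq s : ℝ) ≤ n := by exact_mod_cast (qq_le s).trans hsn
    have hn0 : (0 : ℝ) < n := by exact_mod_cast hn1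
    push_cast
    rw [div_le_iff₀ (by positivity)]
    linarith

end Pool.Agent.H583R2.QC
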