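import Pool.Agent.H583R2.QC.KeyQ
import Pool.Agent.H583R2.BK.Core
import Pool.Agent.H583R2.NC.Main

/-!
# `NP ∩ coNP` is not in `BQP` relative to a random oracle
-/

namespace Pool.Agent.H583R2.QC

open MeasureTheory Pool.Agent.NPC Pool.Agent.H628R3.RO Pool.Agent.H583R2.NC

/-- the families of circuits -/
abbrev Fam : Type := {C : List Bool → List Unit × List H620R2.Gauge.Gate //
  PolyTime (fun x => bits (C x))}

instance : Countable Fam := H620R2.Gauge.countable_circ.to_subtype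

theorem core_Q : ∀ᵐ A ∂randomOracle, (∃ k, ∀ i ≥ k, A ∉ Inv (BK.TT i) (i + 4)) ∧
    ∀ (C : Fam) (k : ℕ), ∃ i ≥ k, A ∉ GoodQ C.1 (BK.TT i) (i + 4) :=
  BK.core_zero (R := Fam) Inv (fun C => GoodQ C.1) (fun s => 81 * ee s) ll
    (fun s => mul_nonneg (by norm_num) (ee_nonneg s)) (summable_ee.mul_left 81) 0
    (fun n s _ hs hn => (prob_Inv_le hs hn).trans
      (mul_le_mul_of_nonneg_left (prob_Bad_le_ee hs hn) (by norm_num)))
    ll_nonneg not_summable_ll (fun C => loc_GoodQ C.2) (fun C => key_Q C.2)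

/-- With probability one, some language in `NP ∩ coNP` is not in `BQP`. -/
theorem npconp_not_bqp : ∀ᵐ A ∂randomOracle, ∃ L : Set (List Bool),
    IsNP A L ∧ IsCoNP A L ∧ ¬ H620R2.Gauge.IsBQP A L := by
  filter_upwards [core_Q] with A hA
  obtain ⟨⟨k, hk⟩, hG⟩ := hA
  set f := BK.fT (BK.TT k) with hf
  have hfn : ∀ n s, f n = some s → s ≤ n := by
    intro n s h
    obtain ⟨_, i, rfl, rfl⟩ := BK.eq_of_fT h
    exact BK.le_TT i
  have hfA : ∀ n s, f n = some s → A ∉ Inv n s := by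
    intro n s h
    obtain ⟨h3, i, rfl, rfl⟩ := BK.eq_of_fT h
    exact hk i (BK.strictMono_TT.le_iff_le.1 h3)
  refine ⟨LL f A, isNP_LL A f (BK.p_fT _) hfn, isCoNP_LL A f (BK.p_fT _) hfn hfA, ?_⟩
  rintro ⟨C, hC, hL⟩
  obtain ⟨i, hi, h3⟩ := hG ⟨C, hC⟩ k
  have hfi : f (BK.TT i) = some (i + 4) := BK.fT_TT (BK.strictMono_TT.monotone hi)
  refine h3 fun b hb j hj ho => ⟨fun h1 _ => ?_, fun h1 _ => ?_⟩
  · exact (hL _).1 ((mem_LL_inst hfi hb hj ho).2 h1)
  · refine (hL _).2 fun h4 => ?_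
    exact (mem_LL_inst hfi hb hj ho).1 h4 h1

end Pool.Agent.H583R2.QC
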