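import Pool.Agent.H583R2.QC.Defs
import Pool.Agent.H583R2.BK.Stubs
import Pool.Agent.H822R2.ESY.QHyb
import Pool.Agent.H620R2.GaugeQ.Q8

/-! Stubs. Never import this file in a finished file. -/

namespace Pool.Agent.H583R2.QC

open MeasureTheory Pool.Agent.NPC Pool.Agent.H628R3.RO Pool.Agent.H583R2.NC
open Pool.Agent.H620R2.Gauge (Gate accProb)

/-! ### Task Q1 (file `QC/Card.lean`) -/

theorem card_pair {K : Set (List Bool)} (hK : K.Finite) {Z η : Set Oracle} (hZ : Loc K Z)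
    (hη : Loc K η) (W : Bool → Finset Cand) (hd : Disjoint (W false) (W true))
    {m w : ℕ} (hm : 1 ≤ m) (hw : ∀ i, (W i).card = w) (t L : ℕ) (hL : 1 ≤ L)
    (hW : ∀ i, ∀ κ ∈ W i, ∀ l < m, pos κ.1 l κ.2 ∈ K)
    (hη' : ∀ (B : Oracle) (h : Finset Cand), h ⊆ W false ∪ W true →
      (plant (allSpots m h) B ∈ η ↔ B ∈ η))
    (hkey : ∀ B ∈ NoHit m (W false ∪ W true), B ∈ η → ∃ (T : Finset Cand) (i : Bool),
      T.card ≤ t ∧ ∀ h ⊆ W i, h.Nonempty → h.card ≤ L → Disjoint h T →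
        plant (allSpots m h) B ∉ Z) :
    (1 - (1 / 2 : ℝ) ^ m) ^ w * ((1 - (1 - (1 / 2 : ℝ) ^ m) ^ w - t * (1 / 2) ^ m -
      w * (1 / 2) ^ m / L) * prob η) ≤
      prob (η ∩ ({A | ¬ (A ∈ NoHit m (W false) ↔ A ∈ NoHit m (W true))} ∩ Zᶜ)) := by sorry

/-! ### Task Q2 (file `QC/Heavy.lean`) -/

theorem dev_plant_le {q : ℕ} (A : Oracle) (m : ℕ) (h : Finset Cand) (l : List Gate)
    (ψ : (Fin q → Bool) → ℝ) : H822R2.ESY.Q.dev A (plant (allSpots m h) A) l ψ ≤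
      ∑ κ ∈ h, H822R2.ESY.Q.dev A (plant (allSpots m {κ}) A) l ψ := by sorry

theorem heavy (B : Oracle) (c : List Unit × List Gate) {T L : ℕ} (m : ℕ) (hT : c.2.length ≤ T)
    (hT1 : 1 ≤ T) (hL : 1 ≤ L) (W : Finset Cand) : ∃ S : Finset Cand,
      S.card ≤ 2304 * T ^ 2 * L ∧ ∀ h ⊆ W, h.card ≤ L → Disjoint h S →
        |accProb B c - accProb (plant (allSpots m h) B) c| ≤ 1 / 12 := by sorry

/-! ### Task Q3 (file `QC/LocQ.lean`) -/

theorem loc_GoodQ {C : List Bool → List Unit × List Gate} (hC : PolyTime (fun x => bits (C x))) :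
    ∃ b : Polynomial ℕ, ∀ n s, s ≤ n → Loc {x | x.length ≤ b.eval (2 ^ n)} (GoodQ C n s) := by
  sorry

/-! ### Task Q4 (file `QC/KeyQ.lean`) -/

theorem key_Q {C : List Bool → List Unit × List Gate} (hC : PolyTime (fun x => bits (C x))) :
    ∃ n0, ∀ n ≥ n0, ∀ s, 4 ≤ s → s ≤ n → ∀ t < n, ∀ η : Set Oracle,
      Loc {x | x.length ≤ t} η → ll s * (7 / 8 * prob η) ≤ prob (η ∩ (GoodQ C n s)ᶜ) := by sorry

/-! ### Task Q5 (file `QC/Main.lean`) -/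

theorem npconp_not_bqp : ∀ᵐ A ∂randomOracle, ∃ L : Set (List Bool),
    IsNP A L ∧ IsCoNP A L ∧ ¬ H620R2.Gauge.IsBQP A L := by sorry

end Pool.Agent.H583R2.QC
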